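import Pool.Agent.Work.MP_3bf421_lc.UN.Union

set_option autoImplicit false

/-!
A set which contains all circuits of a union of matroids inside a given set.
-/

namespace Pool.Agent.Work.MP_3bf421_lc_TR

open Finset
open _root_.MP_3bf421_lc.UN (rk fs cont)

variable {n : ℕ}

theorem fs_submod {l : ℕ} (Ms : Fin l → Matroid (Fin n)) (X Y : Finset (Fin n)) :
    fs Ms (X ∩ Y) + fs Ms (X ∪ Y) ≤ fs Ms X + fs Ms Y := by
  unfold fs
  rw [← sum_add_distrib, ← sum_add_distrib]
  exact sum_le_sum fun j _ => _root_.MP_3bf421_lc.UN.rk_submod (Ms j) X Y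

theorem exists_X {l : ℕ} {Ms : Fin l → Matroid (Fin n)} {N : Matroid (Fin n)}
    (hN : _root_.MP_3bf421_lc.UN.IsUnion N Ms) (C : Finset (Fin n)) :
    ∃ X ⊆ C, fs Ms X ≤ X.card ∧ ∀ D : Finset (Fin n), D ⊆ C →
      N.IsCircuit (D : Set (Fin n)) → D ⊆ X := by
  classical
  obtain ⟨X, hX, hmax⟩ := exists_max_image C.powerset
    (fun X => (X.card : ℤ) - (fs Ms X : ℤ)) ⟨∅, empty_mem_powerset C⟩
  rw [mem_powerset] at hX
  have h0 : fs Ms ∅ = 0 := Finset.sum_eq_zero fun j _ => _root_.MP_3bf421_lc.UN.rk_empty _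
  refine ⟨X, hX, ?_, ?_⟩
  · have h1 := hmax ∅ (empty_mem_powerset C)
    rw [h0, card_empty] at h1
    omega
  · intro D hDC hD
    obtain ⟨e, he⟩ : D.Nonempty := by
      have := hD.nonempty
      exact_mod_cast this
    obtain ⟨h1, h2⟩ := hN.circuit hD he
    have h3 := card_erase_add_one he
    have h4 := fs_submod Ms X D
    have h5 := card_union_add_card_inter X D
    have h6 := hmax (X ∪ D) (mem_powerset.2 (union_subset hX hDC))
    by_contra hcon
    have hss : X ∩ D ⊂ D := by
      rw [ssubset_iff_subset_ne]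
      refine ⟨inter_subset_right, fun h => hcon ?_⟩
      rw [← h]
      exact inter_subset_left
    have h7 : N.Indep ((X ∩ D : Finset (Fin n)) : Set (Fin n)) := by
      apply hD.ssubset_indep
      rw [coe_ssubset]
      exact hss
    have h8 := (hN.indep_iff _).1 h7 _ (Finset.Subset.refl _)
    omega

end Pool.Agent.Work.MP_3bf421_lc_TR
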