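import Mathlib

set_option autoImplicit false

/-!
A number used to split a sum.
-/

namespace Pool.Agent.Work.MP_3bf421_lc_TR

theorem x0_exists {y θ : ℝ} (p : ℕ) (hy : 0 ≤ y) (hθ0 : 0 < θ) (hθ : θ ≤ Real.exp (-1)) :
    ∃ x0 : ℕ, (x0 : ℝ) + θ ^ x0 * ((1 + y) ^ p - 1) ≤ 3 * p * y := by
  have hpy : 0 ≤ (p : ℝ) * y := by positivity
  have h1 : (1 + y) ^ p ≤ Real.exp (p * y) := by
    rw [Real.exp_nat_mul]
    apply pow_le_pow_left₀ (by linarith)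
    have := Real.add_one_le_exp y
    linarith
  by_cases h : (p : ℝ) * y ≤ 1
  · refine ⟨0, ?_⟩
    rw [Nat.cast_zero, pow_zero, one_mul, zero_add]
    have h2 := Real.abs_exp_sub_one_sub_id_le (x := (p : ℝ) * y) (by rwa [abs_of_nonneg hpy])
    have h3 := (abs_le.1 h2).2
    nlinarith
  · push Not at h
    refine ⟨⌈(p : ℝ) * y⌉₊, ?_⟩
    have h2 : (⌈(p : ℝ) * y⌉₊ : ℝ) < p * y + 1 := Nat.ceil_lt_add_one hpy
    have h3 : (p : ℝ) * y ≤ (⌈(p : ℝ) * y⌉₊ : ℝ) := Nat.le_ceil _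
    have h4 : θ ^ ⌈(p : ℝ) * y⌉₊ * (1 + y) ^ p ≤ 1 := by
      have h5 : θ ^ ⌈(p : ℝ) * y⌉₊ ≤ Real.exp (-1) ^ ⌈(p : ℝ) * y⌉₊ :=
        pow_le_pow_left₀ hθ0.le hθ _
      have h6 : Real.exp (-1) ^ ⌈(p : ℝ) * y⌉₊ = Real.exp (-(⌈(p : ℝ) * y⌉₊ : ℝ)) := by
        rw [← Real.exp_nat_mul]
        congr 1
        ring
      calc θ ^ ⌈(p : ℝ) * y⌉₊ * (1 + y) ^ p
          ≤ Real.exp (-(⌈(p : ℝ) * y⌉₊ : ℝ)) * Real.exp (p * y) := by
            rw [← h6]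
            exact mul_le_mul h5 h1 (by positivity) (by positivity)
        _ = Real.exp (p * y - (⌈(p : ℝ) * y⌉₊ : ℝ)) := by
            rw [← Real.exp_add]
            congr 1
            ring
        _ ≤ 1 := by
            rw [Real.exp_le_one_iff]
            linarith
    have h5 : 0 < θ ^ ⌈(p : ℝ) * y⌉₊ := pow_pos hθ0 _
    nlinarith

end Pool.Agent.Work.MP_3bf421_lc_TR
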