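import Pool.Agent.Work.MP_3bf421_lc_LU.RuleV
import Pool.Agent.Work.MP_3bf421_lc.UN.Key

set_option autoImplicit false

/-!
Candidates for the truncation of a matroid, and the elements accepted by the rule.
-/

namespace Pool.Agent.Work.MP_3bf421_lc_TR

open Finset
open Pool.Agent.Work.MP_3bf421_lc_LU
open _root_.MP_3bf421_lc.UN (rk fs cont)

variable {n : ℕ} {α : Type*} [LinearOrder α]

/-- `x` is among the first `U` elements of the optimum of `A` (for `x ∈ A`) -/
def candU (M : Matroid (Fin n)) (κ : Fin n → α) (U : ℕ) (A : Finset (Fin n)) (x : Fin n) : Prop :=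
  x ∉ M.closure {y | y ∈ A ∧ κ x < κ y} ∧ rk M (A.filter (fun y => κ x < κ y)) < U

open Classical in
/-- the candidates at times `≥ T0` -/
noncomputable def CU (M : Matroid (Fin n)) (κ : Fin n → α) (U T0 : ℕ) (σ : Equiv.Perm (Fin n)) :
    Finset (Fin n) :=
  univ.filter (fun x => T0 ≤ (σ.symm x).val ∧ candU M κ U (pre σ ((σ.symm x).val + 1)) x)

/-- the element `e` is accepted -/
def AccU (M : Matroid (Fin n)) (κ : Fin n → α) (U T0 : ℕ) (σ : Equiv.Perm (Fin n))
    (e : Fin n) : Prop :=
  e ∈ CU M κ U T0 σ ∧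
    e ∉ M.closure {x | x ∈ CU M κ U T0 σ ∧ (σ.symm x).val < (σ.symm e).val}

open Classical in
/-- the elements outside `S` that may become candidates if `S` has been seen -/
noncomputable def PU (M : Matroid (Fin n)) (κ : Fin n → α) (U : ℕ) (S : Finset (Fin n)) :
    Finset (Fin n) :=
  univ.filter (fun x => x ∉ S ∧ candU M κ U (insert x S) x)

end Pool.Agent.Work.MP_3bf421_lc_TR
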