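import Pool.Agent.Work.MP_3bf421_lc_TR.Defs

set_option autoImplicit false

/-!
The exponential moment of the number of late positions with a rare property.
-/

namespace Pool.Agent.Work.MP_3bf421_lc_TR

open Finset
open Pool.Agent.Work.MP_3bf421_lc_LU
open _root_.MP_3bf421_lc.UN (rk fs cont)

variable {n : ℕ} {α : Type*} [LinearOrder α]

open Classical in
/-- the weights -/
noncomputable def hg (q : Finset (Fin n) → Fin n → Prop) (G : Finset (Fin n)) (T0 : ℕ) (lam : ℝ)
    (A : Finset (Fin n)) (x : Fin n) : ℝ :=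
  if T0 < A.card ∧ q A x ∧ x ∈ G then lam else 1

open Classical in
/-- the late elements of `G` with the property `q` -/
noncomputable def Lset (q : Finset (Fin n) → Fin n → Prop) (G : Finset (Fin n)) (T0 : ℕ)
    (σ : Equiv.Perm (Fin n)) : Finset (Fin n) :=
  univ.filter (fun x => T0 ≤ (σ.symm x).val ∧ q (pre σ ((σ.symm x).val + 1)) x ∧ x ∈ G)

open Classical in
theorem prod_hg (q : Finset (Fin n) → Fin n → Prop) (G S : Finset (Fin n)) (T0 : ℕ)
    (hST : S.card ≤ T0) (lam : ℝ) (σ : Equiv.Perm (Fin n)) :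
    ∏ i ∈ univ.filter (fun i : Fin n => S.card ≤ i.val), hg q G T0 lam (pre σ (i.val + 1)) (σ i)
    = lam ^ (Lset q G T0 σ).card := by
  have hcardpre : ∀ i : Fin n, (pre σ (i.val + 1)).card = i.val + 1 := fun i =>
    card_pre σ (by omega)
  have h1 : ∀ i ∈ univ.filter (fun i : Fin n => S.card ≤ i.val),
      hg q G T0 lam (pre σ (i.val + 1)) (σ i) = if σ i ∈ Lset q G T0 σ then lam else 1 := by
    intro i _
    unfold hg Lset
    rw [hcardpre i]
    have : (T0 < i.val + 1 ∧ q (pre σ (i.val + 1)) (σ i) ∧ σ i ∈ G) ↔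
        σ i ∈ univ.filter (fun x => T0 ≤ (σ.symm x).val ∧
          q (pre σ ((σ.symm x).val + 1)) x ∧ x ∈ G) := by
      rw [mem_filter, Equiv.symm_apply_apply]
      constructor
      · rintro ⟨a, b, c⟩
        exact ⟨mem_univ _, by omega, b, c⟩
      · rintro ⟨-, a, b, c⟩
        exact ⟨by omega, b, c⟩
    simp only [this]
  rw [prod_congr rfl h1, prod_ite, prod_const_one, mul_one, prod_const]
  congr 1
  refine card_bij (fun i _ => σ i) ?_ ?_ ?_
  · intro i hi
    exact (mem_filter.1 hi).2
  · intro i _ j _ hij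
    exact σ.injective hij
  · intro x hx
    refine ⟨σ.symm x, ?_, by simp⟩
    rw [mem_filter, mem_filter]
    refine ⟨⟨mem_univ _, ?_⟩, by simpa using hx⟩
    unfold Lset at hx
    rw [mem_filter] at hx
    omega

open Classical in
/-- **Moment bound** for a general property. -/
theorem moment0 (q : Finset (Fin n) → Fin n → Prop) (S G : Finset (Fin n)) (T0 ρ : ℕ)
    (hST : S.card ≤ T0) {lam : ℝ} (hlam : 1 ≤ lam)
    (hq : ∀ A : Finset (Fin n), (A.filter (fun x => x ∈ G ∧ q A x)).card ≤ ρ) :
    ∑ σ : Equiv.Perm (Fin n), (if pre σ S.card = S then lam ^ (Lset q G T0 σ).card else 0)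
    ≤ (S.card.factorial : ℝ) * ((n - S.card).factorial : ℝ)
      * PB (T0 - S.card) ((lam - 1) * ρ) (n - S.card) := by
  set z : ℝ := (lam - 1) * ρ with hz
  have hz0 : 0 ≤ z := mul_nonneg (by linarith) (Nat.cast_nonneg _)
  have h1 := order_sum_cond S (hg q G T0 lam) (by
    intro A x
    unfold hg
    split_ifs
    · linarith
    · norm_num) (fun A => ((A.card - S.card).factorial : ℝ) * PB (T0 - S.card) z (A.card - S.card))
    (by
      rw [Nat.sub_self, Nat.factorial_zero, Nat.cast_one, one_mul, PB_of_le _ (Nat.zero_le _)]) (by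
    intro A hA
    have hlt := card_lt_card hA
    have hAS : (A \ S).card = A.card - S.card := card_sdiff_of_subset hA.1
    have hUx : ∀ x ∈ A \ S, hg q G T0 lam A x * ((((A.erase x).card - S.card).factorial : ℝ)
          * PB (T0 - S.card) z ((A.erase x).card - S.card))
        = (((A.card - S.card - 1).factorial : ℝ)
          * PB (T0 - S.card) z (A.card - S.card - 1)) * hg q G T0 lam A x := by
      intro x hx
      rw [mem_sdiff] at hx
      rw [card_erase_of_mem hx.1, show A.card - 1 - S.card = A.card - S.card - 1 by omega]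
      ring
    rw [sum_congr rfl hUx, ← mul_sum]
    obtain ⟨b, hb⟩ : ∃ b, A.card - S.card = b + 1 := ⟨A.card - S.card - 1, by omega⟩
    have e1 : A.card - S.card - 1 = b := by omega
    rw [e1, hb]
    have hP0 := PB_pos (T0 - S.card) hz0 b
    by_cases hT : T0 < A.card
    · have hsum : ∑ x ∈ A \ S, hg q G T0 lam A x ≤ ((b + 1 : ℕ) : ℝ) + z := by
        have h2 : ∀ x ∈ A \ S, hg q G T0 lam A x
            = 1 + (lam - 1) * (if x ∈ G ∧ q A x then 1 else 0) := by
          intro x _
          unfold hg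
          by_cases h3 : x ∈ G ∧ q A x
          · rw [if_pos ⟨hT, h3.2, h3.1⟩, if_pos h3]; ring
          · rw [if_neg (fun h4 => h3 ⟨h4.2.2, h4.2.1⟩), if_neg h3]; ring
        rw [sum_congr rfl h2, sum_add_distrib, ← mul_sum, sum_const, nsmul_eq_mul, mul_one,
          hAS, hb]
        have h3 : (∑ x ∈ A \ S, (if x ∈ G ∧ q A x then (1 : ℝ) else 0)) ≤ ρ := by
          rw [← sum_filter, sum_const, nsmul_eq_mul, mul_one]
          have h4 : ((A \ S).filter (fun x => x ∈ G ∧ q A x)).card ≤ ρ :=
            (card_le_card (filter_subset_filter _ sdiff_subset)).trans (hq A)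
          exact_mod_cast h4
        have h4 : 0 ≤ lam - 1 := by linarith
        rw [hz]
        nlinarith [mul_le_mul_of_nonneg_left h3 h4]
      rw [← PB_fac (T := T0 - S.card) (b := b) z (by omega)]
      calc _ ≤ ((b.factorial : ℝ) * PB (T0 - S.card) z b) * (((b + 1 : ℕ) : ℝ) + z) :=
            mul_le_mul_of_nonneg_left hsum (by positivity)
        _ = _ := by ring
    · have hsum : ∑ x ∈ A \ S, hg q G T0 lam A x = ((b + 1 : ℕ) : ℝ) := by
        have h2 : ∀ x ∈ A \ S, hg q G T0 lam A x = 1 := by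
          intro x _
          unfold hg
          rw [if_neg (fun h => hT h.1)]
        rw [sum_congr rfl h2, sum_const, nsmul_eq_mul, mul_one, hAS, hb]
      rw [hsum, PB_of_le z (by omega), PB_of_le z (by omega), Nat.factorial_succ]
      apply le_of_eq
      push_cast
      ring)
  simp only [card_univ, Fintype.card_fin] at h1
  refine le_trans (le_of_eq ?_) (h1.trans (le_of_eq (by ring)))
  refine sum_congr rfl fun σ _ => ?_
  by_cases hσ : pre σ S.card = S
  · rw [if_pos hσ, if_pos hσ, prod_hg q G S T0 hST lam σ]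
  · rw [if_neg hσ, if_neg hσ]

open Classical in
/-- the number of orders with many late elements in `G` -/
theorem count0 (q : Finset (Fin n) → Fin n → Prop) (S G : Finset (Fin n)) (T0 ρ f : ℕ)
    (hST : S.card ≤ T0) {lam : ℝ} (hlam : 1 ≤ lam)
    (hq : ∀ A : Finset (Fin n), (A.filter (fun x => x ∈ G ∧ q A x)).card ≤ ρ) :
    ((univ.filter (fun σ : Equiv.Perm (Fin n) => pre σ S.card = S ∧
      f ≤ (Lset q G T0 σ).card)).card : ℝ)
    ≤ ((S.card.factorial : ℝ) * ((n - S.card).factorial : ℝ))
      * (PB (T0 - S.card) ((lam - 1) * ρ) (n - S.card) / lam ^ f) := by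
  have h1 := moment0 q S G T0 ρ hST hlam hq
  have hpow : (0 : ℝ) < lam ^ f := by positivity
  rw [mul_div_assoc', le_div_iff₀ hpow]
  refine le_trans ?_ h1
  rw [← nsmul_eq_mul, ← sum_const, sum_filter]
  refine sum_le_sum fun σ _ => ?_
  by_cases h : pre σ S.card = S
  · rw [if_pos h]
    by_cases h2 : f ≤ (Lset q G T0 σ).card
    · rw [if_pos ⟨h, h2⟩]
      exact pow_le_pow_right₀ hlam h2
    · rw [if_neg (fun h3 => h2 h3.2)]
      positivity
  · rw [if_neg h, if_neg (fun h3 => h h3.1)]

end Pool.Agent.Work.MP_3bf421_lc_TR
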