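import Mathlib

set_option autoImplicit false

/-!
Numerical windows for the truncation parameters.
-/

namespace Pool.Agent.Work.MP_3bf421_lc_TR

open Finset

/-- The `j`-th power window. -/
noncomputable def uW (δ : ℝ) (j x : ℕ) : ℕ :=
  ⌈(x : ℝ) ^ (((j : ℝ) + 1) / (⌈1 / δ⌉₊ : ℝ))⌉₊

theorem window {δ : ℝ} (h0 : 0 < δ) (k R ρ : ℕ) (hR : 64 ≤ R) (hρ : 1 ≤ ρ) (hρR : ρ ≤ R)
    (hk : δ * Real.log (R + 1) ≤ k) :
    ∃ j : ℕ, j < 2 * ⌈1 / δ⌉₊ ∧ (∀ x : ℕ, R ≤ 8 * x → ρ ≤ uW δ j x) ∧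
      (∀ x : ℕ, x ≤ R → (uW δ j x : ℝ) ≤ 65 * Real.exp 1 ^ k * ρ) := by
  set J : ℕ := ⌈1 / δ⌉₊ with hJ
  have hJ1 : 0 < J := Nat.ceil_pos.2 (by positivity)
  have hJr : (0 : ℝ) < J := by exact_mod_cast hJ1
  have hJδ : 1 / (J : ℝ) ≤ δ := by
    have h1 : 1 / δ ≤ (J : ℝ) := Nat.le_ceil _
    rw [div_le_iff₀ hJr]
    rw [div_le_iff₀ h0] at h1
    linarith
  have hRr : (64 : ℝ) ≤ R := by exact_mod_cast hR
  have hR0 : (0 : ℝ) < R := by linarith
  have hρr : (1 : ℝ) ≤ ρ := by exact_mod_cast hρ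
  have hρRr : (ρ : ℝ) ≤ R := by exact_mod_cast hρR
  have hRk : (R : ℝ) ^ (1 / (J : ℝ)) ≤ Real.exp 1 ^ k := by
    rw [Real.rpow_def_of_pos hR0, Real.exp_one_pow]
    apply Real.exp_le_exp.2
    have h1 : 0 ≤ Real.log R := Real.log_nonneg (by linarith)
    have h2 : Real.log R ≤ Real.log (R + 1) := Real.log_le_log hR0 (by linarith)
    calc Real.log R * (1 / (J : ℝ)) ≤ Real.log R * δ := by gcongr
      _ ≤ δ * Real.log (R + 1) := by nlinarith
      _ ≤ k := hk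
  have hex : ∃ j : ℕ, 64 * (ρ : ℝ) ≤ (R : ℝ) ^ (((j : ℝ) + 1) / (J : ℝ)) := by
    refine ⟨2 * J - 1, ?_⟩
    have h1 : (((2 * J - 1 : ℕ) : ℝ) + 1) / (J : ℝ) = ((2 : ℕ) : ℝ) := by
      have h2 : ((2 * J - 1 : ℕ) : ℝ) + 1 = 2 * (J : ℝ) := by
        have h3 : (2 * J - 1 : ℕ) + 1 = 2 * J := by omega
        exact_mod_cast h3
      rw [h2]
      field_simp
      norm_num
    rw [h1, Real.rpow_natCast]
    nlinarith
  classical
  refine ⟨Nat.find hex, ?_, ?_, ?_⟩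
  · by_contra hcon
    have h1 := Nat.find_min hex (m := 2 * J - 1) (by omega)
    apply h1
    have h1 : (((2 * J - 1 : ℕ) : ℝ) + 1) / (J : ℝ) = ((2 : ℕ) : ℝ) := by
      have h2 : ((2 * J - 1 : ℕ) : ℝ) + 1 = 2 * (J : ℝ) := by
        have h3 : (2 * J - 1 : ℕ) + 1 = 2 * J := by omega
        exact_mod_cast h3
      rw [h2]
      field_simp
      norm_num
    rw [h1, Real.rpow_natCast]
    nlinarith
  · intro x hx
    have hspec := Nat.find_spec hex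
    have hjl : ((Nat.find hex : ℝ) + 1) / (J : ℝ) ≤ 2 := by
      have h1 : Nat.find hex ≤ 2 * J - 1 := by
        by_contra hcon
        apply Nat.find_min hex (m := 2 * J - 1) (by omega)
        have h1 : (((2 * J - 1 : ℕ) : ℝ) + 1) / (J : ℝ) = ((2 : ℕ) : ℝ) := by
          have h2 : ((2 * J - 1 : ℕ) : ℝ) + 1 = 2 * (J : ℝ) := by
            have h3 : (2 * J - 1 : ℕ) + 1 = 2 * J := by omega
            exact_mod_cast h3
          rw [h2]
          field_simp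
          norm_num
        rw [h1, Real.rpow_natCast]
        nlinarith
      have h2 : (Nat.find hex : ℝ) + 1 ≤ 2 * (J : ℝ) := by
        have h3 : Nat.find hex + 1 ≤ 2 * J := by omega
        exact_mod_cast h3
      rw [div_le_iff₀ hJr]
      exact h2
    set t : ℝ := ((Nat.find hex : ℝ) + 1) / (J : ℝ) with ht
    have ht0 : 0 ≤ t := by positivity
    have hx' : (R : ℝ) ≤ 8 * x := by exact_mod_cast hx
    have h1 : (R : ℝ) ^ t ≤ (8 * (x : ℝ)) ^ t := Real.rpow_le_rpow hR0.le hx' ht0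
    rw [Real.mul_rpow (by norm_num) (by positivity)] at h1
    have h2 : (8 : ℝ) ^ t ≤ (8 : ℝ) ^ (2 : ℝ) := Real.rpow_le_rpow_of_exponent_le (by norm_num) hjl
    have h3 : (8 : ℝ) ^ (2 : ℝ) = 64 := by
      rw [show (2 : ℝ) = ((2 : ℕ) : ℝ) by norm_num, Real.rpow_natCast]
      norm_num
    have h4 : 0 ≤ (x : ℝ) ^ t := by positivity
    have h5 : (ρ : ℝ) ≤ (x : ℝ) ^ t := by nlinarith
    have h6 : (ρ : ℝ) ≤ (uW δ (Nat.find hex) x : ℝ) := h5.trans (Nat.le_ceil _)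
    exact_mod_cast h6
  · intro x hx
    have hxR : (x : ℝ) ≤ R := by exact_mod_cast hx
    have hE : (1 : ℝ) ≤ Real.exp 1 ^ k := one_le_pow₀ (Real.one_le_exp (by norm_num))
    have hmain : (R : ℝ) ^ (((Nat.find hex : ℝ) + 1) / (J : ℝ)) ≤ 64 * Real.exp 1 ^ k * ρ := by
      rcases Nat.eq_zero_or_pos (Nat.find hex) with h1 | h1
      · rw [h1, Nat.cast_zero, zero_add]
        nlinarith
      · have h2 := Nat.find_min hex (m := Nat.find hex - 1) (by omega)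
        rw [not_le] at h2
        have h3 : ((Nat.find hex - 1 : ℕ) : ℝ) + 1 = (Nat.find hex : ℝ) := by
          have h4 : (Nat.find hex - 1 : ℕ) + 1 = Nat.find hex := by omega
          exact_mod_cast h4
        rw [h3] at h2
        rw [add_div, Real.rpow_add hR0]
        have h4 : 0 ≤ (R : ℝ) ^ (1 / (J : ℝ)) := by positivity
        calc (R : ℝ) ^ ((Nat.find hex : ℝ) / J) * (R : ℝ) ^ (1 / (J : ℝ))
            ≤ (64 * ρ) * Real.exp 1 ^ k := by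
              apply mul_le_mul h2.le hRk h4 (by positivity)
          _ = 64 * Real.exp 1 ^ k * ρ := by ring
    have h1 : (x : ℝ) ^ (((Nat.find hex : ℝ) + 1) / (J : ℝ))
        ≤ (R : ℝ) ^ (((Nat.find hex : ℝ) + 1) / (J : ℝ)) :=
      Real.rpow_le_rpow (by positivity) hxR (by positivity)
    have h2 : (uW δ (Nat.find hex) x : ℝ)
        < (x : ℝ) ^ (((Nat.find hex : ℝ) + 1) / (J : ℝ)) + 1 :=
      Nat.ceil_lt_add_one (by positivity)
    nlinarith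

theorem windowS {δ : ℝ} (h0 : 0 < δ) (k R ρ : ℕ) (hk4 : k ≤ 3) (hρ : 1 ≤ ρ) (hρR : ρ ≤ R)
    (hk : δ * Real.log (R + 1) ≤ k) :
    ∃ i : ℕ, i < ⌈6 / δ⌉₊ + 2 ∧ ρ ≤ 2 ^ i ∧ 2 ^ i ≤ 2 * ρ := by
  have h1 : ρ ≤ 2 ^ Nat.clog 2 ρ := Nat.le_pow_clog (by norm_num) ρ
  have h2 : 2 ^ Nat.clog 2 ρ ≤ 2 * ρ := by
    rcases Nat.lt_or_ge 1 ρ with h | h
    · have h3 := Nat.pow_pred_clog_lt_self (b := 2) (by norm_num) h
      have h4 : 0 < Nat.clog 2 ρ := Nat.clog_pos (by norm_num) h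
      have h5 : 2 ^ Nat.clog 2 ρ = 2 * 2 ^ (Nat.clog 2 ρ - 1) := by
        rw [← pow_succ']
        congr 1
        omega
      rw [h5]
      have : 2 ^ (Nat.clog 2 ρ - 1) < ρ := h3
      omega
    · have h3 : ρ = 1 := le_antisymm h hρ
      rw [h3]
      simp
  refine ⟨Nat.clog 2 ρ, ?_, h1, h2⟩
  set i := Nat.clog 2 ρ
  have hR1 : (1 : ℝ) ≤ R := by exact_mod_cast hρ.trans hρR
  have h3 : ((2 : ℝ)) ^ i ≤ 2 * (R + 1) := by
    have h4 : 2 ^ i ≤ 2 * (R + 1) := h2.trans (by omega)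
    exact_mod_cast h4
  have h4 : (i : ℝ) * Real.log 2 ≤ Real.log 2 + Real.log (R + 1) := by
    rw [← Real.log_pow, ← Real.log_mul (by norm_num) (by positivity)]
    exact Real.log_le_log (by positivity) h3
  have hk3 : (k : ℝ) ≤ 3 := by exact_mod_cast hk4
  have h5 : Real.log (R + 1) ≤ 3 / δ := by
    rw [le_div_iff₀ h0]
    linarith
  have hl : (1 / 2 : ℝ) < Real.log 2 := by
    have := Real.log_two_gt_d9
    linarith
  have h6 : (i : ℝ) ≤ 1 + 6 / δ := by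
    have h7 : ((i : ℝ) - 1) * Real.log 2 ≤ 3 / δ := by linarith
    rcases le_or_gt ((i : ℝ) - 1) 0 with h8 | h8
    · have : 0 ≤ 6 / δ := by positivity
      linarith
    · have h9 : ((i : ℝ) - 1) * (1 / 2) ≤ ((i : ℝ) - 1) * Real.log 2 :=
        mul_le_mul_of_nonneg_left hl.le h8.le
      have h10 : 6 / δ = 2 * (3 / δ) := by ring
      rw [h10]
      linarith
  have h7 : (i : ℝ) < (⌈6 / δ⌉₊ : ℝ) + 2 := by
    have := Nat.le_ceil (6 / δ)
    linarith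
  exact_mod_cast h7

theorem numK (k : ℕ) (hk : 4 ≤ k) :
    1560 * (Real.exp 1 / 4000) ^ k ≤ (1 / 4000 : ℝ) ^ 2 / (16 * Real.exp 1) := by
  have he : Real.exp 1 < 2.72 := by
    have := Real.exp_one_lt_d9
    linarith
  have he0 : 0 < Real.exp 1 := Real.exp_pos 1
  have h1 : (Real.exp 1 / 4000) ^ k ≤ (Real.exp 1 / 4000) ^ 4 :=
    pow_le_pow_of_le_one (by positivity) (by rw [div_le_one (by norm_num)]; linarith) hk
  have h2 : 1560 * (Real.exp 1 / 4000) ^ 4 ≤ (1 / 4000 : ℝ) ^ 2 / (16 * Real.exp 1) := by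
    rw [le_div_iff₀ (by positivity)]
    have h3 : Real.exp 1 ^ 5 ≤ (2.72 : ℝ) ^ 5 := pow_le_pow_left₀ he0.le he.le 5
    have h4 : 1560 * (Real.exp 1 / 4000) ^ 4 * (16 * Real.exp 1)
        = 1560 * 16 / 4000 ^ 4 * Real.exp 1 ^ 5 := by ring
    rw [h4]
    calc 1560 * 16 / 4000 ^ 4 * Real.exp 1 ^ 5 ≤ 1560 * 16 / 4000 ^ 4 * (2.72 : ℝ) ^ 5 := by
          gcongr
      _ ≤ (1 / 4000 : ℝ) ^ 2 := by norm_num
  linarith

end Pool.Agent.Work.MP_3bf421_lc_TR
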